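import Pool.Agent.H56.CF.Targets

/-!
# The sum of the number of the square divisors
-/

set_option autoImplicit false

namespace Pool.Agent.H98.CF

open Pool.Agent.H56.CF

theorem sum_log_fact (M : ℕ) :
    ∑ m ∈ Finset.Icc 1 M, Real.log (m : ℝ) = Real.log (M.factorial : ℝ) := by
  induction M with
  | zero => simp
  | succ M ih =>
    rw [Finset.sum_Icc_succ_top (by omega), ih, Nat.factorial_succ]
    push_cast
    rw [Real.log_mul (by positivity) (by positivity)]
    ring

theorem sqd_lemma (z : ℝ) (hz : 0 < z) :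
    ∑ m ∈ Finset.Icc 1 ⌊z⌋₊, (Real.log (z / m) + 1) ≤ 2 * z := by
  rcases Nat.eq_zero_or_pos ⌊z⌋₊ with h0 | h0
  · rw [h0]
    rw [Finset.Icc_eq_empty_of_lt Nat.zero_lt_one, Finset.sum_empty]
    positivity
  · set M := ⌊z⌋₊ with hM
    have hM0 : (0 : ℝ) < M := by exact_mod_cast h0
    have hMz : (M : ℝ) ≤ z := Nat.floor_le hz.le
    have h1 : ∑ m ∈ Finset.Icc 1 M, (Real.log (z / m) + 1) =
        M * Real.log z - ∑ m ∈ Finset.Icc 1 M, Real.log m + M := by
      have h2 : ∀ m ∈ Finset.Icc 1 M, Real.log (z / m) + 1 = Real.log z - Real.log m + 1 := by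
        intro m hm
        rw [Finset.mem_Icc] at hm
        have : (m : ℝ) ≠ 0 := by
          have : 0 < m := hm.1
          positivity
        rw [Real.log_div hz.ne' this]
      rw [Finset.sum_congr rfl h2, Finset.sum_add_distrib, Finset.sum_sub_distrib]
      simp
    have h3 : ∑ m ∈ Finset.Icc 1 M, Real.log (m : ℝ) = Real.log (M.factorial : ℝ) :=
      sum_log_fact M
    have hf : (0 : ℝ) < (M.factorial : ℝ) := by exact_mod_cast M.factorial_pos
    have h4 : (M : ℝ) * Real.log M - M ≤ Real.log (M.factorial : ℝ) := by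
      have h5 : (M : ℝ) ^ M / (M.factorial : ℝ) ≤ Real.exp M :=
        Real.pow_div_factorial_le_exp (M : ℝ) hM0.le M
      have h6 := Real.log_le_log (by positivity) h5
      rw [Real.log_exp, Real.log_div (by positivity) hf.ne', Real.log_pow] at h6
      linarith
    have h7 : Real.log z - Real.log M ≤ z / M - 1 := by
      rw [← Real.log_div hz.ne' hM0.ne']
      exact Real.log_le_sub_one_of_pos (by positivity)
    have h8 : (M : ℝ) * (Real.log z - Real.log M) ≤ M * (z / M - 1) :=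
      mul_le_mul_of_nonneg_left h7 hM0.le
    have h9 : (M : ℝ) * (z / M - 1) = z - M := by
      field_simp
    rw [h1, h3]
    nlinarith

theorem inv_sq_sum (N : ℕ) : ∑ e ∈ Finset.Icc 1 N, 1 / (e : ℝ) ^ 2 ≤ 2 := by
  have h : ∀ N : ℕ, ∑ e ∈ Finset.Icc 1 (N + 1), 1 / (e : ℝ) ^ 2 ≤ 2 - 1 / ((N : ℝ) + 1) := by
    intro N
    induction N with
    | zero => norm_num
    | succ N ih =>
      rw [Finset.sum_Icc_succ_top (by omega)]
      have h1 : (0 : ℝ) < (N : ℝ) + 1 := by positivity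
      have h2 : 1 / (((N + 1 + 1 : ℕ) : ℝ)) ^ 2 ≤
          1 / ((N : ℝ) + 1) - 1 / (((N + 1 : ℕ) : ℝ) + 1) := by
        push_cast
        rw [div_sub_div _ _ h1.ne' (by positivity), div_le_div_iff₀ (by positivity)
          (by positivity)]
        nlinarith
      linarith
  rcases N with _ | N
  · norm_num
  · refine (h N).trans ?_
    have : 0 ≤ 1 / ((N : ℝ) + 1) := by positivity
    linarith

theorem pf_SQD : T_SQD := by
  intro x hx
  set N := ⌊x⌋₊ with hN
  have h1 : ∀ n ∈ Finset.Icc 1 N, (sqd n : ℝ) * (Real.log (x / n) + 1) =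
      ∑ e ∈ Finset.Icc 1 N, if e ^ 2 ∣ n then (Real.log (x / n) + 1) else 0 := by
    intro n hn
    rw [Finset.mem_Icc] at hn
    rw [← Finset.sum_filter, Finset.sum_const, nsmul_eq_mul]
    congr 2
    unfold sqd
    congr 1
    ext e
    rw [Finset.mem_filter, Finset.mem_filter, Finset.mem_Icc, Finset.mem_Icc]
    constructor
    · rintro ⟨⟨h2, h3⟩, h4⟩
      exact ⟨⟨h2, h3.trans hn.2⟩, h4⟩
    · rintro ⟨⟨h2, h3⟩, h4⟩
      refine ⟨⟨h2, ?_⟩, h4⟩
      calc e ≤ e ^ 2 := Nat.le_self_pow (by norm_num) e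
        _ ≤ n := Nat.le_of_dvd (by omega) h4
  rw [Finset.sum_congr rfl h1, Finset.sum_comm]
  have h2 : ∀ e ∈ Finset.Icc 1 N, (∑ n ∈ Finset.Icc 1 N,
      if e ^ 2 ∣ n then (Real.log (x / n) + 1) else 0) ≤ 2 * x * (1 / (e : ℝ) ^ 2) := by
    intro e he
    rw [Finset.mem_Icc] at he
    have he0 : 0 < e := he.1
    have he1 : (0 : ℝ) < (e : ℝ) ^ 2 := by positivity
    rw [← Finset.sum_filter]
    have h3 : (Finset.Icc 1 N).filter (fun n => e ^ 2 ∣ n) =
        (Finset.Icc 1 ⌊x / (e : ℝ) ^ 2⌋₊).image (fun m => e ^ 2 * m) := by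
      ext n
      rw [Finset.mem_filter, Finset.mem_image, Finset.mem_Icc]
      constructor
      · rintro ⟨⟨h4, h5⟩, m, rfl⟩
        refine ⟨m, ?_, rfl⟩
        rw [Finset.mem_Icc]
        refine ⟨?_, ?_⟩
        · rcases Nat.eq_zero_or_pos m with h | h
          · rw [h, mul_zero] at h4
            omega
          · exact h
        · rw [Nat.le_floor_iff (by positivity), le_div_iff₀ he1]
          rw [hN, Nat.le_floor_iff hx.le] at h5
          push_cast at h5
          linarith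
      · rintro ⟨m, hm, rfl⟩
        rw [Finset.mem_Icc] at hm
        refine ⟨⟨?_, ?_⟩, dvd_mul_right _ _⟩
        · have : 0 < e ^ 2 * m := Nat.mul_pos (by positivity) hm.1
          omega
        · have h6 := hm.2
          rw [Nat.le_floor_iff (by positivity), le_div_iff₀ he1] at h6
          rw [hN, Nat.le_floor_iff hx.le]
          push_cast
          linarith
    rw [h3, Finset.sum_image]
    · have h4 := sqd_lemma (x / (e : ℝ) ^ 2) (by positivity)
      have h5 : ∀ m ∈ Finset.Icc 1 ⌊x / (e : ℝ) ^ 2⌋₊,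
          Real.log (x / ((e ^ 2 * m : ℕ) : ℝ)) + 1 = Real.log (x / (e : ℝ) ^ 2 / m) + 1 := by
        intro m _
        push_cast
        rw [div_div]
      rw [Finset.sum_congr rfl h5]
      refine h4.trans (le_of_eq ?_)
      ring
    · intro a _ b _ hab
      exact Nat.eq_of_mul_eq_mul_left (by positivity) hab
  calc ∑ e ∈ Finset.Icc 1 N, ∑ n ∈ Finset.Icc 1 N,
        (if e ^ 2 ∣ n then (Real.log (x / n) + 1) else 0)
      ≤ ∑ e ∈ Finset.Icc 1 N, 2 * x * (1 / (e : ℝ) ^ 2) := Finset.sum_le_sum h2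
    _ = 2 * x * ∑ e ∈ Finset.Icc 1 N, 1 / (e : ℝ) ^ 2 := by rw [Finset.mul_sum]
    _ ≤ 2 * x * 2 := mul_le_mul_of_nonneg_left (inv_sq_sum N) (by positivity)
    _ = 4 * x := by ring

end Pool.Agent.H98.CF
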