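import Pool.Agent.H95.CF.Targets
import Pool.Agent.H18.CG.CH

/-!
# Cauchy's inequality over the primitive characters
-/

set_option autoImplicit false

namespace Pool.Agent.H98.CF.GK

open Pool.Agent.H31.CN Pool.Agent.H95.CF Pool.Agent.H18.CG

section

variable {G : Type} [CommGroup G] [Fintype G]

/-- the character `φ` is trivial on `U` -/
def Tr (φ : G →* ℂˣ) (U : Subgroup G) : Prop := ∀ u ∈ U, φ u = 1

open Classical in
theorem sum_sub (U : Subgroup G) (φ : G →* ℂˣ) :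
    ∑ u : U, ((φ (u : G) : ℂˣ) : ℂ) = if Tr φ U then (Nat.card U : ℂ) else 0 := by
  by_cases h : Tr φ U
  · rw [if_pos h]
    have : ∀ u : U, ((φ (u : G) : ℂˣ) : ℂ) = 1 := fun u => by
      rw [h u u.2, Units.val_one]
    rw [Finset.sum_congr rfl fun u _ => this u]
    simp
  · rw [if_neg h]
    unfold Tr at h
    push Not at h
    obtain ⟨u₀, hu₀, hne⟩ := h
    have h1 : ∑ u : U, ((φ (u : G) : ℂˣ) : ℂ) =
        ((φ u₀ : ℂˣ) : ℂ) * ∑ u : U, ((φ (u : G) : ℂˣ) : ℂ) := by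
      rw [Finset.mul_sum]
      refine (Fintype.sum_equiv (Equiv.mulLeft (⟨u₀, hu₀⟩ : U)) _ _ ?_).symm
      intro u
      simp
    have h2 : (((φ u₀ : ℂˣ) : ℂ) - 1) * ∑ u : U, ((φ (u : G) : ℂˣ) : ℂ) = 0 := by
      rw [sub_mul, ← h1]
      ring
    rcases mul_eq_zero.1 h2 with h3 | h3
    · exfalso
      apply hne
      ext
      rw [Units.val_one]
      linear_combination h3
    · exact h3

open Classical in
theorem card_ch [Fintype (G →* ℂˣ)] : (Fintype.card (G →* ℂˣ) : ℂ) = Fintype.card G := by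
  have := CommGroup.card_monoidHom_of_hasEnoughRootsOfUnity G ℂ
  rw [Nat.card_eq_fintype_card, Nat.card_eq_fintype_card] at this
  rw [this]

open Classical in
/-- Fourier expansion of the indicator function of a subgroup -/
theorem sum_tr [Fintype (G →* ℂˣ)] (U : Subgroup G) (x : G) :
    (∑ φ : G →* ℂˣ, ((φ x : ℂˣ) : ℂ) * (if Tr φ U then 1 else 0)) =
      (Fintype.card G : ℂ) * ((if x ∈ U then 1 else 0) / (Nat.card U : ℂ)) := by
  have hU : (Nat.card U : ℂ) ≠ 0 := by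
    have : Nat.card U ≠ 0 := Nat.card_pos.ne'
    exact_mod_cast this
  have h1 : ∀ φ : G →* ℂˣ, ((φ x : ℂˣ) : ℂ) * (if Tr φ U then 1 else 0) * (Nat.card U : ℂ) =
      ∑ u : U, ((φ (x * (u : G)) : ℂˣ) : ℂ) := by
    intro φ
    have h2 : ∑ u : U, ((φ (x * (u : G)) : ℂˣ) : ℂ) =
        ((φ x : ℂˣ) : ℂ) * ∑ u : U, ((φ (u : G) : ℂˣ) : ℂ) := by
      rw [Finset.mul_sum]
      refine Finset.sum_congr rfl fun u _ => ?_
      rw [map_mul, Units.val_mul]
    rw [h2, sum_sub]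
    split_ifs <;> ring
  have h3 : (∑ φ : G →* ℂˣ, ((φ x : ℂˣ) : ℂ) * (if Tr φ U then 1 else 0)) * (Nat.card U : ℂ) =
      (Fintype.card G : ℂ) * (if x ∈ U then 1 else 0) := by
    rw [Finset.sum_mul, Finset.sum_congr rfl fun φ _ => h1 φ, Finset.sum_comm]
    by_cases hx : x ∈ U
    · rw [if_pos hx, mul_one]
      rw [Finset.sum_eq_single (⟨x⁻¹, U.inv_mem hx⟩ : U)]
      · simp only [mul_inv_cancel, map_one, Units.val_one, Finset.sum_const, Finset.card_univ,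
          nsmul_eq_mul, mul_one]
        exact card_ch
      · intro u _ hu
        refine sum_all _ ?_
        intro h
        apply hu
        ext
        exact eq_inv_of_mul_eq_one_right h
      · intro h
        exact absurd (Finset.mem_univ _) h
    · rw [if_neg hx, mul_zero]
      refine Finset.sum_eq_zero fun u _ => sum_all _ ?_
      intro h
      apply hx
      have : x = (u : G)⁻¹ := eq_inv_of_mul_eq_one_left h
      rw [this]
      exact U.inv_mem u.2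
  rw [← mul_div_assoc, eq_div_iff hU, h3]

theorem tr_sup (P : Finset ℕ) (H : ℕ → Subgroup G) (φ : G →* ℂˣ) :
    Tr φ (⨆ p ∈ P, H p) ↔ ∀ p ∈ P, Tr φ (H p) := by
  have h : ∀ U : Subgroup G, Tr φ U ↔ U ≤ φ.ker := by
    intro U
    exact ⟨fun h u hu => (MonoidHom.mem_ker).2 (h u hu), fun h u hu => (MonoidHom.mem_ker).1 (h hu)⟩
  rw [h, iSup₂_le_iff]
  exact forall₂_congr fun p _ => (h (H p)).symm

/-- primitive characters -/
def Pm (P : Finset ℕ) (H : ℕ → Subgroup G) (φ : G →* ℂˣ) : Prop := ∀ p ∈ P, ∃ g ∈ H p, φ g ≠ 1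

open Classical in
theorem sum_pow (P : Finset ℕ) (H : ℕ → Subgroup G) (φ : G →* ℂˣ) :
    (∑ T ∈ P.powerset, (-1 : ℂ) ^ T.card * (if Tr φ (⨆ p ∈ T, H p) then 1 else 0)) =
      if Pm P H φ then 1 else 0 := by
  have h1 : ∀ T ∈ P.powerset, (-1 : ℂ) ^ T.card * (if Tr φ (⨆ p ∈ T, H p) then 1 else 0) =
      (∏ p ∈ T, (-(if Tr φ (H p) then (1 : ℂ) else 0))) * ∏ p ∈ P \ T, (1 : ℂ) := by
    intro T _
    rw [Finset.prod_const_one, mul_one]
    have h2 : ∏ p ∈ T, (-(if Tr φ (H p) then (1 : ℂ) else 0)) =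
        (-1 : ℂ) ^ T.card * ∏ p ∈ T, (if Tr φ (H p) then (1 : ℂ) else 0) := by
      rw [← Finset.prod_const, ← Finset.prod_mul_distrib]
      refine Finset.prod_congr rfl fun p _ => ?_
      ring
    rw [h2]
    congr 1
    by_cases h : ∀ p ∈ T, Tr φ (H p)
    · rw [if_pos ((tr_sup T H φ).2 h)]
      symm
      refine Finset.prod_eq_one fun p hp => ?_
      rw [if_pos (h p hp)]
    · rw [if_neg (fun h' => h ((tr_sup T H φ).1 h'))]
      push Not at h
      obtain ⟨p, hp, hpt⟩ := h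
      symm
      exact Finset.prod_eq_zero hp (if_neg hpt)
  rw [Finset.sum_congr rfl h1, ← Finset.prod_add]
  by_cases h : Pm P H φ
  · rw [if_pos h]
    refine Finset.prod_eq_one fun p hp => ?_
    obtain ⟨g, hg, hne⟩ := h p hp
    rw [if_neg (fun h' => hne (h' g hg))]
    ring
  · rw [if_neg h]
    unfold Pm at h
    push Not at h
    obtain ⟨p, hp, hpt⟩ := h
    refine Finset.prod_eq_zero hp ?_
    rw [if_pos (show Tr φ (H p) from hpt)]
    ring

open Classical in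
/-- Fourier expansion of the kernel -/
theorem Kg_eq [Fintype (G →* ℂˣ)] (P : Finset ℕ) (H : ℕ → Subgroup G) (x : G) :
    (Fintype.card G : ℂ) * ((Kg P H x : ℝ) : ℂ) =
      ∑ φ : G →* ℂˣ, ((φ x : ℂˣ) : ℂ) * (if Pm P H φ then 1 else 0) := by
  have h1 : ((Kg P H x : ℝ) : ℂ) = ∑ T ∈ P.powerset, (-1 : ℂ) ^ T.card *
      ((if x ∈ (⨆ p ∈ T, H p : Subgroup G) then (1 : ℂ) else 0) /
        (Nat.card (⨆ p ∈ T, H p : Subgroup G) : ℂ)) := by
    unfold Kg
    rw [Complex.ofReal_sum]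
    refine Finset.sum_congr rfl fun T _ => ?_
    push_cast
    rw [mul_div_assoc]
    split_ifs <;> simp
  rw [h1, Finset.mul_sum]
  have h2 : ∀ T ∈ P.powerset, (Fintype.card G : ℂ) * ((-1 : ℂ) ^ T.card *
      ((if x ∈ (⨆ p ∈ T, H p : Subgroup G) then (1 : ℂ) else 0) /
        (Nat.card (⨆ p ∈ T, H p : Subgroup G) : ℂ))) =
      ∑ φ : G →* ℂˣ, ((φ x : ℂˣ) : ℂ) * ((-1 : ℂ) ^ T.card *
        (if Tr φ (⨆ p ∈ T, H p) then 1 else 0)) := by
    intro T _
    have h3 := sum_tr (⨆ p ∈ T, H p : Subgroup G) x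
    calc (Fintype.card G : ℂ) * ((-1 : ℂ) ^ T.card *
          ((if x ∈ (⨆ p ∈ T, H p : Subgroup G) then (1 : ℂ) else 0) /
            (Nat.card (⨆ p ∈ T, H p : Subgroup G) : ℂ)))
        = (-1 : ℂ) ^ T.card * ((Fintype.card G : ℂ) *
          ((if x ∈ (⨆ p ∈ T, H p : Subgroup G) then (1 : ℂ) else 0) /
            (Nat.card (⨆ p ∈ T, H p : Subgroup G) : ℂ))) := by ring
      _ = (-1 : ℂ) ^ T.card * (∑ φ : G →* ℂˣ, ((φ x : ℂˣ) : ℂ) *
          (if Tr φ (⨆ p ∈ T, H p) then 1 else 0)) := by rw [h3]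
      _ = _ := by
        rw [Finset.mul_sum]
        refine Finset.sum_congr rfl fun φ _ => ?_
        ring
  rw [Finset.sum_congr rfl h2, Finset.sum_comm]
  refine Finset.sum_congr rfl fun φ _ => ?_
  rw [← Finset.mul_sum, sum_pow]

end

end Pool.Agent.H98.CF.GK

namespace Pool.Agent.H98.CF

open Pool.Agent.H31.CN Pool.Agent.H95.CF Pool.Agent.H18.CG Pool.Agent.H98.CF.GK

theorem pf_GK (_hCSG : T_CSG) : T_GK := by
  intro G _ _ P H W
  classical
  have : Finite (G →* ℂˣ) := inferInstance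
  have : Fintype (G →* ℂˣ) := Fintype.ofFinite _
  set A : (G →* ℂˣ) → ℂ := fun φ => ∑ g, ((φ g : ℂˣ) : ℂ) * ((W g : ℝ) : ℂ) with hA
  have hG : (0 : ℝ) < Fintype.card G := by
    exact_mod_cast Fintype.card_pos
  set S₂ : ℝ := ∑ g, ∑ g', W g * W g' * Kg P H (g⁻¹ * g') with hS₂
  set S₁ : ℝ := ∑ g, W g * Kg P H g with hS₁
  -- the quadratic form
  have h2 : (Fintype.card G : ℝ) * S₂ = ∑ φ : G →* ℂˣ, if Pm P H φ then ‖A φ‖ ^ 2 else 0 := by
    have e0 : (((Fintype.card G : ℝ) * S₂ : ℝ) : ℂ) =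
        ((∑ φ : G →* ℂˣ, if Pm P H φ then ‖A φ‖ ^ 2 else 0 : ℝ) : ℂ) := by
      have e1 : (((Fintype.card G : ℝ) * S₂ : ℝ) : ℂ) = ∑ g, ∑ g', ((W g : ℝ) : ℂ) *
          ((W g' : ℝ) : ℂ) * ((Fintype.card G : ℂ) * ((Kg P H (g⁻¹ * g') : ℝ) : ℂ)) := by
        rw [hS₂]
        push_cast
        rw [Finset.mul_sum]
        refine Finset.sum_congr rfl fun g _ => ?_
        rw [Finset.mul_sum]
        refine Finset.sum_congr rfl fun g' _ => ?_
        ring
      have e2 : ∀ φ : G →* ℂˣ, ((if Pm P H φ then ‖A φ‖ ^ 2 else 0 : ℝ) : ℂ) =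
          ∑ g, ∑ g', ((W g : ℝ) : ℂ) * ((W g' : ℝ) : ℂ) *
            (((φ (g⁻¹ * g') : ℂˣ) : ℂ) * (if Pm P H φ then 1 else 0)) := by
        intro φ
        by_cases h : Pm P H φ
        · rw [if_pos h, Complex.ofReal_pow, ← Complex.conj_mul']
          simp only [hA]
          rw [map_sum, Finset.sum_mul_sum]
          refine Finset.sum_congr rfl fun g _ => Finset.sum_congr rfl fun g' _ => ?_
          rw [if_pos h, map_mul, conj_char, Complex.conj_ofReal, map_mul, Units.val_mul]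
          ring
        · rw [if_neg h]
          simp only [if_neg h, mul_zero, Finset.sum_const_zero, Complex.ofReal_zero]
      rw [e1, Complex.ofReal_sum, Finset.sum_congr rfl fun φ _ => e2 φ]
      symm
      rw [Finset.sum_comm]
      refine Finset.sum_congr rfl fun g _ => ?_
      rw [Finset.sum_comm]
      refine Finset.sum_congr rfl fun g' _ => ?_
      rw [Kg_eq, Finset.mul_sum]
    exact_mod_cast e0
  -- the linear form
  have h1 : (((Fintype.card G : ℝ) * S₁ : ℝ) : ℂ) =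
      ∑ φ : G →* ℂˣ, if Pm P H φ then A φ else 0 := by
    have e1 : (((Fintype.card G : ℝ) * S₁ : ℝ) : ℂ) = ∑ g, ((W g : ℝ) : ℂ) *
        ((Fintype.card G : ℂ) * ((Kg P H g : ℝ) : ℂ)) := by
      rw [hS₁]
      push_cast
      rw [Finset.mul_sum]
      refine Finset.sum_congr rfl fun g _ => ?_
      ring
    have e2 : ∀ φ : G →* ℂˣ, (if Pm P H φ then A φ else 0) =
        ∑ g, ((W g : ℝ) : ℂ) * (((φ g : ℂˣ) : ℂ) * (if Pm P H φ then 1 else 0)) := by
      intro φ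
      by_cases h : Pm P H φ
      · rw [if_pos h]
        simp only [hA, if_pos h]
        refine Finset.sum_congr rfl fun g _ => ?_
        ring
      · rw [if_neg h]
        simp only [if_neg h, mul_zero, Finset.sum_const_zero]
    rw [e1, Finset.sum_congr rfl fun φ _ => e2 φ]
    symm
    rw [Finset.sum_comm]
    refine Finset.sum_congr rfl fun g _ => ?_
    rw [Kg_eq, Finset.mul_sum]
  have hS20 : 0 ≤ S₂ := by
    have h3 : 0 ≤ (Fintype.card G : ℝ) * S₂ := by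
      rw [h2]
      refine Finset.sum_nonneg fun φ _ => ?_
      split_ifs <;> positivity
    exact nonneg_of_mul_nonneg_right h3 hG
  refine ⟨hS20, ?_⟩
  set F : Finset (G →* ℂˣ) := Finset.univ.filter fun φ => Pm P H φ ∧ A φ ≠ 0 with hF
  have hcard : Nat.card {φ : G →* ℂˣ // Pm P H φ ∧ A φ ≠ 0} = F.card := by
    rw [Nat.card_eq_fintype_card, Fintype.card_subtype]
  have hs1 : (∑ φ : G →* ℂˣ, if Pm P H φ then A φ else 0) = ∑ φ ∈ F, A φ := by
    rw [hF, Finset.sum_filter]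
    refine Finset.sum_congr rfl fun φ _ => ?_
    by_cases h : Pm P H φ
    · by_cases h0 : A φ = 0
      · rw [if_pos h, if_neg (fun h' => h'.2 h0), h0]
      · rw [if_pos h, if_pos ⟨h, h0⟩]
    · rw [if_neg h, if_neg (fun h' => h h'.1)]
  have hs2 : ∑ φ ∈ F, ‖A φ‖ ^ 2 ≤ (Fintype.card G : ℝ) * S₂ := by
    rw [h2, hF, Finset.sum_filter]
    refine Finset.sum_le_sum fun φ _ => ?_
    by_cases h : Pm P H φ
    · by_cases h0 : A φ = 0
      · rw [if_neg (fun h' => h'.2 h0), if_pos h]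
        positivity
      · rw [if_pos ⟨h, h0⟩, if_pos h]
    · rw [if_neg (fun h' => h h'.1), if_neg h]
  have hCS : (∑ φ ∈ F, ‖A φ‖) ^ 2 ≤ (F.card : ℝ) * ∑ φ ∈ F, ‖A φ‖ ^ 2 :=
    sq_sum_le_card_mul_sum_sq
  have h3 : |(Fintype.card G : ℝ) * S₁| ≤ ∑ φ ∈ F, ‖A φ‖ := by
    have h4 : ‖(((Fintype.card G : ℝ) * S₁ : ℝ) : ℂ)‖ = |(Fintype.card G : ℝ) * S₁| := by
      rw [Complex.norm_real, Real.norm_eq_abs]
    rw [← h4, h1, hs1]
    exact norm_sum_le F A
  have h4 : ((Fintype.card G : ℝ) * S₁) ^ 2 ≤ (F.card : ℝ) * ((Fintype.card G : ℝ) * S₂) := by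
    calc ((Fintype.card G : ℝ) * S₁) ^ 2 = |(Fintype.card G : ℝ) * S₁| ^ 2 := (sq_abs _).symm
      _ ≤ (∑ φ ∈ F, ‖A φ‖) ^ 2 := pow_le_pow_left₀ (abs_nonneg _) h3 2
      _ ≤ (F.card : ℝ) * ∑ φ ∈ F, ‖A φ‖ ^ 2 := hCS
      _ ≤ _ := mul_le_mul_of_nonneg_left hs2 (Nat.cast_nonneg _)
  change _ ≤ (Nat.card {φ : G →* ℂˣ // Pm P H φ ∧ A φ ≠ 0} : ℝ) * S₂
  rw [hcard]
  have h5 : (Fintype.card G : ℝ) * ((Fintype.card G : ℝ) * S₁ ^ 2) ≤
      (Fintype.card G : ℝ) * ((F.card : ℝ) * S₂) := by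
    calc (Fintype.card G : ℝ) * ((Fintype.card G : ℝ) * S₁ ^ 2)
        = ((Fintype.card G : ℝ) * S₁) ^ 2 := by ring
      _ ≤ (F.card : ℝ) * ((Fintype.card G : ℝ) * S₂) := h4
      _ = _ := by ring
  exact le_of_mul_le_mul_left h5 hG

end Pool.Agent.H98.CF
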